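import Mathlib

/-!
ZH, module Energy (2c): additive energy of products of Kloosterman phases, and the bound of
short sums `∑ a, ∑ b, α a * β b * F (a + b)` by two applications of Cauchy-Schwarz.
Everything is elementary.
-/

namespace Pool.ZH

open Finset ComplexConjugate

section Group

variable {G : Type*} [AddCommGroup G] [Fintype G]

/-- complete correlation of `F` -/
noncomputable def corr (F : G → ℂ) (d : G) : ℂ := ∑ t, F (t + d) * conj (F t)

/-- additive energy of `F` -/
noncomputable def energy (F : G → ℂ) : ℝ := ∑ d, ‖corr F d‖ ^ 2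

lemma energy_nonneg (F : G → ℂ) : 0 ≤ energy F := Finset.sum_nonneg fun _ _ => by positivity

/-- translation invariance -/
lemma corr_translate (F : G → ℂ) (r d : G) : corr (fun x => F (x + r)) d = corr F d := by
  unfold corr
  refine Fintype.sum_equiv (Equiv.addRight r) _ _ fun t => ?_
  simp only [Equiv.coe_addRight]
  rw [show t + d + r = t + r + d by abel]

lemma energy_translate (F : G → ℂ) (r : G) : energy (fun x => F (x + r)) = energy F := by
  unfold energy
  simp only [corr_translate]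

/-- the second moment of a twisted sum is the pairing of the two correlations -/
lemma sum_conv_sq (F β : G → ℂ) :
    ((∑ t, ‖∑ b, β b * F (t + b)‖ ^ 2 : ℝ) : ℂ) = ∑ d, corr F d * corr β d := by
  have h1 : ∀ t : G, ((‖∑ b, β b * F (t + b)‖ ^ 2 : ℝ) : ℂ)
      = ∑ b', ∑ b, β b * conj (β b') * (F (t + b) * conj (F (t + b'))) := by
    intro t
    rw [Complex.ofReal_pow, ← Complex.mul_conj', map_sum, Finset.sum_mul_sum, Finset.sum_comm]
    refine Finset.sum_congr rfl fun b' _ => Finset.sum_congr rfl fun b _ => ?_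
    rw [map_mul]; ring
  push_cast
  simp only [← Complex.ofReal_pow, h1]
  -- reorganise
  rw [Finset.sum_comm]
  have h2 : ∀ b' : G, ∑ t, ∑ b, β b * conj (β b') * (F (t + b) * conj (F (t + b')))
      = ∑ d, corr F d * (β (b' + d) * conj (β b')) := by
    intro b'
    rw [Finset.sum_comm]
    rw [← Fintype.sum_equiv (Equiv.addLeft b') (fun d => ∑ t, β (b' + d) * conj (β b') *
      (F (t + (b' + d)) * conj (F (t + b')))) _ (fun d => by simp)]
    refine Finset.sum_congr rfl fun d _ => ?_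
    rw [← Finset.mul_sum, mul_comm]
    congr 1
    unfold corr
    refine Fintype.sum_equiv (Equiv.addRight b') _ _ fun t => ?_
    simp only [Equiv.coe_addRight]
    rw [show t + (b' + d) = t + b' + d by abel]
  simp only [h2]
  rw [Finset.sum_comm]
  refine Finset.sum_congr rfl fun d _ => ?_
  rw [← Finset.mul_sum]
  rfl

/-- **Two Cauchy-Schwarz**: short bilinear sums through the energy. -/
theorem bilinear_pow_four (F α β : G → ℂ) :
    ‖∑ a, ∑ b, α a * β b * F (a + b)‖ ^ 4 ≤ (∑ a, ‖α a‖ ^ 2) ^ 2 * energy β * energy F := by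
  have hA : ‖∑ a, ∑ b, α a * β b * F (a + b)‖ ^ 2
      ≤ (∑ a, ‖α a‖ ^ 2) * ∑ t, ‖∑ b, β b * F (t + b)‖ ^ 2 := by
    have h1 : ‖∑ a, ∑ b, α a * β b * F (a + b)‖ ≤ ∑ a, ‖α a‖ * ‖∑ b, β b * F (a + b)‖ := by
      refine (norm_sum_le _ _).trans (le_of_eq (Finset.sum_congr rfl fun a _ => ?_))
      rw [← norm_mul, Finset.mul_sum]
      congr 1
      exact Finset.sum_congr rfl fun b _ => by ring
    calc ‖∑ a, ∑ b, α a * β b * F (a + b)‖ ^ 2
        ≤ (∑ a, ‖α a‖ * ‖∑ b, β b * F (a + b)‖) ^ 2 := by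
          exact pow_le_pow_left₀ (norm_nonneg _) h1 2
      _ ≤ _ := Finset.sum_mul_sq_le_sq_mul_sq _ _ _
  have hB : (∑ t, ‖∑ b, β b * F (t + b)‖ ^ 2) ^ 2 ≤ energy F * energy β := by
    have h2 : (∑ t, ‖∑ b, β b * F (t + b)‖ ^ 2 : ℝ) ≤ ∑ d, ‖corr F d‖ * ‖corr β d‖ := by
      have h3 := sum_conv_sq F β
      have h4 : (∑ t, ‖∑ b, β b * F (t + b)‖ ^ 2 : ℝ)
          = ‖((∑ t, ‖∑ b, β b * F (t + b)‖ ^ 2 : ℝ) : ℂ)‖ := by
        rw [Complex.norm_real, Real.norm_of_nonneg]
        exact Finset.sum_nonneg fun _ _ => by positivity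
      rw [h4, h3]
      refine (norm_sum_le _ _).trans (le_of_eq (Finset.sum_congr rfl fun d _ => ?_))
      rw [norm_mul]
    calc (∑ t, ‖∑ b, β b * F (t + b)‖ ^ 2) ^ 2 ≤ (∑ d, ‖corr F d‖ * ‖corr β d‖) ^ 2 := by
          refine pow_le_pow_left₀ (Finset.sum_nonneg fun _ _ => by positivity) h2 2
      _ ≤ _ := Finset.sum_mul_sq_le_sq_mul_sq _ _ _
  calc ‖∑ a, ∑ b, α a * β b * F (a + b)‖ ^ 4
      = (‖∑ a, ∑ b, α a * β b * F (a + b)‖ ^ 2) ^ 2 := by ring
    _ ≤ ((∑ a, ‖α a‖ ^ 2) * ∑ t, ‖∑ b, β b * F (t + b)‖ ^ 2) ^ 2 :=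
        pow_le_pow_left₀ (by positivity) hA 2
    _ = (∑ a, ‖α a‖ ^ 2) ^ 2 * (∑ t, ‖∑ b, β b * F (t + b)‖ ^ 2) ^ 2 := by ring
    _ ≤ (∑ a, ‖α a‖ ^ 2) ^ 2 * (energy F * energy β) := by gcongr
    _ = _ := by ring

/-- trivial bound of the energy of a function supported on `B`, bounded by `1` -/
lemma energy_le_card_pow [DecidableEq G] (β : G → ℂ) (B : Finset G) (hB : ∀ x, x ∉ B → β x = 0)
    (h1 : ∀ x, ‖β x‖ ≤ 1) : energy β ≤ (B.card : ℝ) ^ 3 := by
  -- r d = number of x in B with x + d in B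
  have hr : ∀ d : G, ‖corr β d‖ ≤ ((B.filter fun x => x + d ∈ B).card : ℝ) := by
    intro d
    unfold corr
    calc ‖∑ t, β (t + d) * conj (β t)‖ ≤ ∑ t, ‖β (t + d) * conj (β t)‖ := norm_sum_le _ _
      _ ≤ ∑ t, (if t ∈ B ∧ t + d ∈ B then (1 : ℝ) else 0) := by
          refine Finset.sum_le_sum fun t _ => ?_
          split_ifs with h
          · rw [norm_mul, RCLike.norm_conj]
            exact mul_le_one₀ (h1 _) (norm_nonneg _) (h1 _)
          · rw [not_and_or] at h
            rcases h with h | h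
            · rw [hB t h]; simp
            · rw [hB _ h]; simp
      _ = _ := by
          rw [Finset.sum_boole]
          congr 2
          ext x
          simp
  have hle : ∀ d : G, ((B.filter fun x => x + d ∈ B).card : ℝ) ≤ B.card := fun d => by
    exact_mod_cast Finset.card_filter_le _ _
  have hsum : ∑ d : G, ((B.filter fun x => x + d ∈ B).card : ℝ) = (B.card : ℝ) ^ 2 := by
    have : ∑ d : G, (B.filter fun x => x + d ∈ B).card = B.card ^ 2 := by
      simp only [Finset.card_filter]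
      rw [Finset.sum_comm]
      have : ∀ x ∈ B, ∑ d : G, (if x + d ∈ B then 1 else 0) = B.card := by
        intro x _
        rw [Fintype.sum_equiv (Equiv.addLeft x) (fun d => if x + d ∈ B then 1 else 0)
          (fun y => if y ∈ B then 1 else 0) (fun d => by rfl)]
        rw [Finset.sum_boole]
        simp
      rw [Finset.sum_congr rfl this, Finset.sum_const, smul_eq_mul, sq]
    exact_mod_cast this
  unfold energy
  calc ∑ d, ‖corr β d‖ ^ 2 ≤ ∑ d : G, ((B.filter fun x => x + d ∈ B).card : ℝ) * B.card := by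
        refine Finset.sum_le_sum fun d _ => ?_
        rw [sq]
        exact mul_le_mul (hr d) ((hr d).trans (hle d)) (norm_nonneg _) (by positivity)
    _ = (B.card : ℝ) ^ 3 := by rw [← Finset.sum_mul, hsum]; ring

end Group

section Pi

variable {ι : Type*} [Fintype ι] [DecidableEq ι] {G : ι → Type*} [∀ i, AddCommGroup (G i)]
  [∀ i, Fintype (G i)]

lemma corr_pi (φ : ∀ i, G i → ℂ) (d : ∀ i, G i) :
    corr (fun x : ∀ i, G i => ∏ i, φ i (x i)) d = ∏ i, corr (φ i) (d i) := by
  unfold corr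
  rw [Finset.prod_univ_sum, Fintype.piFinset_univ]
  refine Finset.sum_congr rfl fun t _ => ?_
  rw [map_prod, ← Finset.prod_mul_distrib]
  rfl

lemma energy_pi (φ : ∀ i, G i → ℂ) :
    energy (fun x : ∀ i, G i => ∏ i, φ i (x i)) = ∏ i, energy (φ i) := by
  unfold energy
  simp only [corr_pi]
  rw [Finset.prod_univ_sum, Fintype.piFinset_univ]
  refine Finset.sum_congr rfl fun d _ => ?_
  rw [norm_prod, ← Finset.prod_pow]

end Pi

section Prime

variable {l : ℕ} [hl : Fact l.Prime]

/-- the Kloosterman phase `e(c x^(-1) / l)`, `0` at `x = 0` -/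
noncomputable def kl (c : ZMod l) (x : ZMod l) : ℂ :=
  if x = 0 then 0 else ZMod.stdAddChar (c * x⁻¹)

lemma norm_kl_le (c x : ZMod l) : ‖kl c x‖ ≤ 1 := by
  unfold kl
  split_ifs
  · simp
  · rw [AddChar.norm_apply]

lemma kl_scale (c u x : ZMod l) (hu : u ≠ 0) : kl (c * u) x = kl c (x * u⁻¹) := by
  unfold kl
  by_cases hx : x = 0
  · simp [hx]
  · rw [if_neg hx, if_neg (mul_ne_zero hx (inv_ne_zero hu)), mul_inv, inv_inv]
    congr 1; ring

lemma energy_kl_scale (c u : ZMod l) (hu : u ≠ 0) : energy (kl (c * u)) = energy (kl c) := by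
  unfold energy
  have e : ZMod l ≃ ZMod l := Equiv.mulRight₀ u⁻¹ (inv_ne_zero hu)
  have h : ∀ d, corr (kl (c * u)) d = corr (kl c) (d * u⁻¹) := by
    intro d
    unfold corr
    refine Fintype.sum_equiv (Equiv.mulRight₀ u⁻¹ (inv_ne_zero hu)) _ _ fun t => ?_
    simp only [Equiv.mulRight₀_apply, kl_scale c u _ hu, add_mul]
  simp only [h]
  exact Fintype.sum_equiv (Equiv.mulRight₀ u⁻¹ (inv_ne_zero hu)) _ _ fun d => by
    simp only [Equiv.mulRight₀_apply]

/-- solutions of `(t+d)^(-1) - t^(-1) = (t'+d)^(-1) - t'^(-1)` -/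
lemma card_sol_le (d : ZMod l) (hd : d ≠ 0) (t : ZMod l) (ht : t ≠ 0) (htd : t + d ≠ 0) :
    (Finset.univ.filter fun t' : ZMod l => t' ≠ 0 ∧ t' + d ≠ 0 ∧
      (t + d)⁻¹ - t⁻¹ = (t' + d)⁻¹ - t'⁻¹).card ≤ 2 := by
  refine (Finset.card_le_card (t := {t, -t - d}) ?_).trans Finset.card_le_two
  intro t' h
  simp only [Finset.mem_filter, Finset.mem_univ, true_and] at h
  obtain ⟨h1, h2, h3⟩ := h
  rw [Finset.mem_insert, Finset.mem_singleton]
  have h4 : d * (t' * (t' + d) - t * (t + d)) = 0 := by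
    field_simp at h3
    linear_combination -h3
  have h5 : (t' - t) * (t' - (-t - d)) = 0 := by
    rcases mul_eq_zero.1 h4 with h | h
    · exact absurd h hd
    · linear_combination h
  rcases mul_eq_zero.1 h5 with h | h
  · exact Or.inl (sub_eq_zero.1 h)
  · exact Or.inr (sub_eq_zero.1 h)

/-- the quadruple indicator -/
def Sol (d t t' : ZMod l) : Prop :=
  (t ≠ 0 ∧ t + d ≠ 0) ∧ (t' ≠ 0 ∧ t' + d ≠ 0 ∧ (t + d)⁻¹ - t⁻¹ = (t' + d)⁻¹ - t'⁻¹)

instance (d t t' : ZMod l) : Decidable (Sol d t t') := by unfold Sol; infer_instance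

lemma energy_kl_term (d t t' : ZMod l) :
    ∑ c : ZMod l, (kl c (t + d) * conj (kl c t)) * conj (kl c (t' + d) * conj (kl c t'))
      = if Sol d t t' then (l : ℂ) else 0 := by
  by_cases h0 : t = 0 ∨ t + d = 0 ∨ t' = 0 ∨ t' + d = 0
  · have hS : ¬ Sol d t t' := by
      unfold Sol; tauto
    rw [if_neg hS]
    refine Finset.sum_eq_zero fun c _ => ?_
    unfold kl
    rcases h0 with h | h | h | h <;> simp [h]
  · push Not at h0
    obtain ⟨h1, h2, h3, h4⟩ := h0
    have hterm : ∀ c : ZMod l,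
        (kl c (t + d) * conj (kl c t)) * conj (kl c (t' + d) * conj (kl c t'))
          = ZMod.stdAddChar (c * ((t + d)⁻¹ - t⁻¹ - ((t' + d)⁻¹ - t'⁻¹))) := by
      intro c
      unfold kl
      rw [if_neg h1, if_neg h2, if_neg h3, if_neg h4, ← AddChar.map_neg_eq_conj,
        ← AddChar.map_neg_eq_conj, ← AddChar.map_add_eq_mul, ← AddChar.map_add_eq_mul,
        ← AddChar.map_neg_eq_conj, ← AddChar.map_add_eq_mul]
      congr 1; ring
    simp only [hterm]
    rw [AddChar.sum_mulShift _ (ZMod.isPrimitive_stdAddChar l), ZMod.card]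
    by_cases hS : Sol d t t'
    · rw [if_pos hS, if_pos]
      exact sub_eq_zero.2 hS.2.2.2
    · rw [if_neg hS, if_neg]
      · simp
      · intro h
        exact hS ⟨⟨h1, h2⟩, h3, h4, sub_eq_zero.1 h⟩

lemma energy_kl_sum_eq : ∑ c : ZMod l, energy (kl c)
    = (l : ℝ) * ∑ d : ZMod l, ∑ t : ZMod l, ((Finset.univ.filter fun t' => Sol d t t').card : ℝ) := by
  have hC : ((∑ c : ZMod l, energy (kl c) : ℝ) : ℂ)
      = ((l : ℝ) * ∑ d : ZMod l, ∑ t : ZMod l,
          ((Finset.univ.filter fun t' => Sol d t t').card : ℝ) : ℝ) := by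
    unfold energy corr
    push_cast
    rw [Finset.sum_comm, Finset.mul_sum]
    refine Finset.sum_congr rfl fun d _ => ?_
    have h1 : ∀ c : ZMod l, ((‖∑ t, kl c (t + d) * conj (kl c t)‖ : ℝ) : ℂ) ^ 2
        = ∑ t, ∑ t', (kl c (t + d) * conj (kl c t)) * conj (kl c (t' + d) * conj (kl c t')) := by
      intro c
      rw [← Complex.mul_conj', map_sum, Finset.sum_mul_sum]
    simp only [h1]
    rw [Finset.sum_comm, Finset.mul_sum]
    refine Finset.sum_congr rfl fun t _ => ?_
    rw [Finset.sum_comm]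
    simp only [energy_kl_term]
    rw [← Finset.sum_filter, Finset.sum_const, nsmul_eq_mul, mul_comm]
  exact_mod_cast hC

lemma energy_kl_sum_le : ∑ c : ZMod l, energy (kl c) ≤ 3 * (l : ℝ) ^ 2 * (l - 1) := by
  have hl1 : (1 : ℝ) < l := by exact_mod_cast hl.out.one_lt
  rw [energy_kl_sum_eq]
  have hne : ∀ d : ZMod l, d ≠ 0 →
      ∑ t : ZMod l, ((Finset.univ.filter fun t' => Sol d t t').card : ℝ) ≤ 2 * l := by
    intro d hd
    calc ∑ t : ZMod l, ((Finset.univ.filter fun t' => Sol d t t').card : ℝ)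
        ≤ ∑ t : ZMod l, (2 : ℝ) := by
          refine Finset.sum_le_sum fun t _ => ?_
          by_cases h : t ≠ 0 ∧ t + d ≠ 0
          · have := card_sol_le d hd t h.1 h.2
            have h5 : (Finset.univ.filter fun t' => Sol d t t') = (Finset.univ.filter
              fun t' : ZMod l => t' ≠ 0 ∧ t' + d ≠ 0 ∧ (t + d)⁻¹ - t⁻¹ = (t' + d)⁻¹ - t'⁻¹) := by
              ext x; simp [Sol, h.1, h.2]
            rw [h5]
            exact_mod_cast this
          · have h5 : (Finset.univ.filter fun t' => Sol d t t') = ∅ := by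
              ext x; simp only [Finset.mem_filter, Finset.mem_univ, true_and,
                Finset.notMem_empty, iff_false]
              unfold Sol
              tauto
            rw [h5]; simp
      _ = 2 * l := by rw [Finset.sum_const, Finset.card_univ, ZMod.card, nsmul_eq_mul]; ring
  have hz : ∑ t : ZMod l, ((Finset.univ.filter fun t' => Sol 0 t t').card : ℝ) ≤ (l - 1) * (l - 1) := by
    have hc : ((Finset.univ.erase (0 : ZMod l)).card : ℝ) = l - 1 := by
      rw [Finset.card_erase_of_mem (Finset.mem_univ _), Finset.card_univ, ZMod.card,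
        Nat.cast_sub hl.out.one_lt.le, Nat.cast_one]
    calc ∑ t : ZMod l, ((Finset.univ.filter fun t' => Sol 0 t t').card : ℝ)
        ≤ ∑ t ∈ Finset.univ.erase (0 : ZMod l), ((Finset.univ.erase (0 : ZMod l)).card : ℝ) := by
          rw [← Finset.sum_erase_add _ _ (Finset.mem_univ (0 : ZMod l))]
          have h5 : (Finset.univ.filter fun t' => Sol (0 : ZMod l) 0 t') = ∅ := by
            ext x; simp [Sol]
          rw [h5, Finset.card_empty, Nat.cast_zero, add_zero]
          refine Finset.sum_le_sum fun t _ => ?_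
          have : (Finset.univ.filter fun t' => Sol 0 t t').card
              ≤ (Finset.univ.erase (0 : ZMod l)).card := by
            refine Finset.card_le_card fun x hx => ?_
            simp only [Finset.mem_filter, Finset.mem_univ, true_and] at hx
            exact Finset.mem_erase.2 ⟨hx.2.1, Finset.mem_univ _⟩
          exact_mod_cast this
      _ = _ := by rw [Finset.sum_const, nsmul_eq_mul, hc]
  have htot : ∑ d : ZMod l, ∑ t : ZMod l, ((Finset.univ.filter fun t' => Sol d t t').card : ℝ)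
      ≤ (l - 1) * (2 * l) + (l - 1) * (l - 1) := by
    rw [← Finset.sum_erase_add _ _ (Finset.mem_univ (0 : ZMod l))]
    refine add_le_add ?_ hz
    calc _ ≤ ∑ d ∈ Finset.univ.erase (0 : ZMod l), (2 * (l : ℝ)) :=
          Finset.sum_le_sum fun d hd => hne d (Finset.ne_of_mem_erase hd)
      _ = _ := by
          rw [Finset.sum_const, Finset.card_erase_of_mem (Finset.mem_univ _), Finset.card_univ,
            ZMod.card, nsmul_eq_mul, Nat.cast_sub hl.out.one_lt.le, Nat.cast_one]
  calc (l : ℝ) * ∑ d : ZMod l, ∑ t : ZMod l, ((Finset.univ.filter fun t' => Sol d t t').card : ℝ)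
      ≤ l * ((l - 1) * (2 * l) + (l - 1) * (l - 1)) := by gcongr
    _ ≤ l * ((l - 1) * (3 * l)) := by
        have : (0 : ℝ) ≤ (l - 1) := by linarith
        have h2 : ((l : ℝ) - 1) * (l - 1) ≤ (l - 1) * l := by nlinarith
        nlinarith
    _ = _ := by ring

theorem energy_kl_le (c : ZMod l) (hc : c ≠ 0) : energy (kl c) ≤ 3 * (l : ℝ) ^ 2 := by
  have hl1 : (1 : ℝ) < l := by exact_mod_cast hl.out.one_lt
  have h1 : ∀ c' ∈ (Finset.univ.erase (0 : ZMod l)), energy (kl c') = energy (kl c) := by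
    intro c' hc'
    have h0 : c' ≠ 0 := Finset.ne_of_mem_erase hc'
    have : c' = c * (c⁻¹ * c') := by field_simp
    rw [this, energy_kl_scale c _ (mul_ne_zero (inv_ne_zero hc) h0)]
  have h2 : ((l : ℝ) - 1) * energy (kl c) ≤ ∑ c' : ZMod l, energy (kl c') := by
    calc ((l : ℝ) - 1) * energy (kl c) = ∑ c' ∈ Finset.univ.erase (0 : ZMod l), energy (kl c') := by
          rw [Finset.sum_congr rfl h1, Finset.sum_const, Finset.card_erase_of_mem (Finset.mem_univ _),
            Finset.card_univ, ZMod.card, nsmul_eq_mul, Nat.cast_sub hl.out.one_lt.le, Nat.cast_one]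
      _ ≤ _ := Finset.sum_le_sum_of_subset_of_nonneg (Finset.erase_subset _ _)
          fun _ _ _ => energy_nonneg _
  have h3 := h2.trans (energy_kl_sum_le (l := l))
  have h4 : ((l : ℝ) - 1) * energy (kl c) ≤ (l - 1) * (3 * (l : ℝ) ^ 2) := by linarith
  exact le_of_mul_le_mul_left h4 (by linarith)

/-- trivial bound -/
lemma energy_kl_le' (c : ZMod l) : energy (kl c) ≤ (l : ℝ) ^ 3 := by
  have h := energy_le_card_pow (kl c) Finset.univ (fun x hx => absurd (Finset.mem_univ x) hx)
    (fun x => norm_kl_le c x)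
  rwa [Finset.card_univ, ZMod.card] at h

/-- both cases -/
lemma energy_kl_all (c : ZMod l) :
    energy (kl c) ≤ 3 * (l : ℝ) ^ 2 * (if c = 0 then (l : ℝ) else 1) := by
  split_ifs with h
  · have h1 := energy_kl_le' c
    have h2 : (0 : ℝ) ≤ (l : ℝ) ^ 3 := by positivity
    calc energy (kl c) ≤ (l : ℝ) ^ 3 := h1
      _ ≤ 3 * (l : ℝ) ^ 2 * l := by nlinarith
  · rw [mul_one]; exact energy_kl_le c h

end Prime

section Push

variable {G : Type*} [AddCommGroup G] [Fintype G] [DecidableEq G] {κ : Type*}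

/-- push-forward of a weight on a finset -/
noncomputable def push (I : Finset κ) (e : κ → G) (α : κ → ℂ) (g : G) : ℂ :=
  ∑ a ∈ I, if e a = g then α a else 0

lemma sum_push (I : Finset κ) (e : κ → G) (α : κ → ℂ) (f : G → ℂ) :
    ∑ g, push I e α g * f g = ∑ a ∈ I, α a * f (e a) := by
  unfold push
  simp only [Finset.sum_mul]
  rw [Finset.sum_comm]
  refine Finset.sum_congr rfl fun a _ => ?_
  simp [ite_mul]

lemma push_apply {I : Finset κ} {e : κ → G} (he : Set.InjOn e I) (α : κ → ℂ) {a : κ}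
    (ha : a ∈ I) : push I e α (e a) = α a := by
  unfold push
  rw [Finset.sum_eq_single a]
  · simp
  · intro b hb hba
    rw [if_neg]
    intro h
    exact hba (he hb ha h)
  · exact fun h => absurd ha h

lemma push_notMem {I : Finset κ} {e : κ → G} (α : κ → ℂ) {g : G} (hg : g ∉ I.image e) :
    push I e α g = 0 := by
  unfold push
  refine Finset.sum_eq_zero fun a ha => ?_
  rw [if_neg]
  rintro rfl
  exact hg (Finset.mem_image_of_mem e ha)

lemma sum_push_sq {I : Finset κ} {e : κ → G} (he : Set.InjOn e I) (α : κ → ℂ) :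
    ∑ g, ‖push I e α g‖ ^ 2 = ∑ a ∈ I, ‖α a‖ ^ 2 := by
  rw [← Finset.sum_subset (Finset.subset_univ (I.image e))
    (fun g _ hg => by rw [push_notMem α hg]; simp), Finset.sum_image he]
  exact Finset.sum_congr rfl fun a ha => by rw [push_apply he α ha]

/-- two Cauchy-Schwarz for sums over finsets mapped injectively into `G` -/
theorem bilinear_finset (I J : Finset κ) (e : κ → G) (hI : Set.InjOn e I) (hJ : Set.InjOn e J)
    (α β : κ → ℂ) (hβ : ∀ b ∈ J, ‖β b‖ ≤ 1) (F : G → ℂ) :
    ‖∑ a ∈ I, ∑ b ∈ J, α a * β b * F (e a + e b)‖ ^ 4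
      ≤ (∑ a ∈ I, ‖α a‖ ^ 2) ^ 2 * (J.card : ℝ) ^ 3 * energy F := by
  have h1 : ∑ a ∈ I, ∑ b ∈ J, α a * β b * F (e a + e b)
      = ∑ g, ∑ h, push I e α g * push J e β h * F (g + h) := by
    simp only [mul_assoc, ← Finset.mul_sum]
    rw [sum_push I e α (fun g => ∑ h, push J e β h * F (g + h))]
    refine Finset.sum_congr rfl fun a _ => ?_
    rw [sum_push J e β (fun h => F (e a + h))]
  rw [h1]
  refine (bilinear_pow_four F _ _).trans ?_
  rw [sum_push_sq hI]
  have h2 : energy (push J e β) ≤ (J.card : ℝ) ^ 3 := by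
    have h3 := energy_le_card_pow (push J e β) (J.image e) (fun x hx => push_notMem β hx) ?_
    · rwa [Finset.card_image_of_injOn hJ] at h3
    · intro x
      by_cases hx : x ∈ J.image e
      · obtain ⟨b, hb, rfl⟩ := Finset.mem_image.1 hx
        rw [push_apply hJ β hb]
        exact hβ b hb
      · rw [push_notMem β hx]; simp
  have h4 := energy_nonneg F
  gcongr

end Push

section Interval

variable {ι : Type*} [Fintype ι] [DecidableEq ι]

/-- the integers embed in the product of the residue rings, injectively on short intervals -/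
lemma injOn_cast (p : ι → ℕ) (hp : Pairwise (Function.onFun Nat.Coprime p)) (x : ℤ) (N : ℕ)
    (hN : N ≤ ∏ i, p i) :
    Set.InjOn (fun n : ℤ => fun i : ι => (n : ZMod (p i))) (Finset.Ico x (x + N) : Finset ℤ) := by
  intro a ha b hb hab
  rw [Finset.coe_Ico, Set.mem_Ico] at ha hb
  have h1 : ∀ i, (p i : ℤ) ∣ a - b := by
    intro i
    have := congrFun hab i
    exact (ZMod.intCast_eq_intCast_iff_dvd_sub _ _ _).1 this.symm
  have h2 : ((∏ i, p i : ℕ) : ℤ) ∣ a - b := by
    push_cast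
    refine Finset.prod_dvd_of_coprime ?_ (fun i _ => h1 i)
    intro i _ j _ hij
    exact Nat.isCoprime_iff_coprime.2 (hp hij)
  have h3 : |a - b| < ((∏ i, p i : ℕ) : ℤ) := by
    have : (N : ℤ) ≤ ((∏ i, p i : ℕ) : ℤ) := by exact_mod_cast hN
    rw [abs_lt]; constructor <;> linarith
  have := Int.eq_zero_of_abs_lt_dvd h2 h3
  linarith

/-- **Short bilinear sums of Kloosterman phases** to a squarefree modulus `∏ p i`. -/
theorem kl_short_sum (p : ι → ℕ) [∀ i, Fact (p i).Prime] (hp : Function.Injective p)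
    (c r : ∀ i, ZMod (p i)) (x y : ℤ) (N M : ℕ) (hN : N ≤ ∏ i, p i) (hM : M ≤ ∏ i, p i)
    (α β : ℤ → ℂ) (hβ : ∀ b, ‖β b‖ ≤ 1) :
    ‖∑ a ∈ Finset.Ico x (x + N), ∑ b ∈ Finset.Ico y (y + M),
        α a * β b * ∏ i, kl (c i) (((a + b : ℤ) : ZMod (p i)) + r i)‖ ^ 4
      ≤ (∑ a ∈ Finset.Ico x (x + N), ‖α a‖ ^ 2) ^ 2 * (M : ℝ) ^ 3 *
        ∏ i, (3 * (p i : ℝ) ^ 2 * (if c i = 0 then (p i : ℝ) else 1)) := by
  have hpc : Pairwise (Function.onFun Nat.Coprime p) := by
    intro i j hij
    exact (Nat.coprime_primes (Fact.out : (p i).Prime) (Fact.out : (p j).Prime)).2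
      (fun h => hij (hp h))
  have h1 := bilinear_finset (Finset.Ico x (x + N)) (Finset.Ico y (y + M))
    (fun n : ℤ => fun i : ι => (n : ZMod (p i))) (injOn_cast p hpc x N hN)
    (injOn_cast p hpc y M hM) α β (fun b _ => hβ b)
    (fun g : ∀ i, ZMod (p i) => ∏ i, kl (c i) (g i + r i))
  have h2 : energy (fun g : ∀ i, ZMod (p i) => ∏ i, kl (c i) (g i + r i))
      ≤ ∏ i, (3 * (p i : ℝ) ^ 2 * (if c i = 0 then (p i : ℝ) else 1)) := by
    rw [energy_pi (fun i (z : ZMod (p i)) => kl (c i) (z + r i))]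
    refine Finset.prod_le_prod (fun i _ => energy_nonneg _) fun i _ => ?_
    rw [energy_translate]
    exact energy_kl_all (c i)
  have h3 : (Finset.Ico y (y + (M : ℤ))).card = M := by simp
  rw [h3] at h1
  have h4 : ∀ a b : ℤ, (∏ i, kl (c i) (((a + b : ℤ) : ZMod (p i)) + r i))
      = (fun g : ∀ i, ZMod (p i) => ∏ i, kl (c i) (g i + r i))
        ((fun i => (a : ZMod (p i))) + (fun i => (b : ZMod (p i)))) := by
    intro a b
    simp [Pi.add_apply]
  simp only [h4]
  refine h1.trans ?_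
  gcongr

end Interval

end Pool.ZH
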